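import Pool.Agent.V11275.QM7

set_option autoImplicit false

open UpperHalfPlane hiding I
open Complex EisensteinSeries ModularForm MatrixGroups
open scoped MatrixGroups ModularForm

namespace Pool.Agent.Results.MP_d6a497_nt.Monotone

/-- `d_w = dim M_w + dim M_{w-2}`, where `M_k` is the space of modular forms of weight `k`
for `SL(2, ℤ)`. -/
noncomputable def dimQ (w : ℕ) : ℕ :=
  Module.finrank ℂ (ModularForm 𝒮ℒ (w : ℤ)) + Module.finrank ℂ (ModularForm 𝒮ℒ ((w : ℤ) - 2))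

/-- `X` is the normalized extremal quasimodular form of weight `w` and depth at most one:
`X = f + E₂ g` with `f ∈ M_w`, `g ∈ M_{w-2}`, and `X = q^(d_w - 1) + O(q^(d_w))`. -/
def IsExtremal (w : ℕ) (X : ℍ → ℂ) : Prop :=
  ∃ (f : ModularForm 𝒮ℒ (w : ℤ)) (g : ModularForm 𝒮ℒ ((w : ℤ) - 2)) (c : ℕ → ℂ),
    (∀ τ : ℍ, X τ = f τ + E2 τ * g τ) ∧
    (∀ τ : ℍ, HasSum (fun n : ℕ => c n * cexp (2 * Real.pi * I * (n * (τ : ℂ)))) (X τ)) ∧
    (∀ n, n < dimQ w - 1 → c n = 0) ∧ c (dimQ w - 1) = 1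

open Pool.Agent.V11275 Pool.Agent.V11275.QM Pool.Agent.W97.MT

theorem dimQ_eq' (w : ℕ) (hw : Even w) (h2 : 2 ≤ w) : dimQ w - 1 = w / 6 := by
  have : dimQ w = w / 6 + 1 := QM.dimQ_eq w hw h2
  omega

/-- For every even `w ≥ 6` other than `8` and `10` the extremal form `X` of weight `w` and depth
at most one exists and is unique, it is real on the imaginary axis, and `t ↦ t^(w-1) X(it)` is
decreasing on `(0, ∞)`. -/
theorem result (w : ℕ) (hw : Even w) (h6 : 6 ≤ w) (h8 : w ≠ 8) (h10 : w ≠ 10) :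
    (∃! X : ℍ → ℂ, IsExtremal w X) ∧
    ∀ X : ℍ → ℂ, IsExtremal w X →
      (∀ τ : ℍ, τ.re = 0 → (X τ).im = 0) ∧
      ∀ σ τ : ℍ, σ.re = 0 → τ.re = 0 → σ.im < τ.im →
        τ.im ^ (w - 1) * (X τ).re ≤ σ.im ^ (w - 1) * (X σ).re := by
  have hd := dimQ_eq' w hw (by omega)
  have conv : ∀ X : ℍ → ℂ, IsExtremal w X → ∃ φ : PowerSeries ℂ, IsQ1 w X ∧ Q X φ ∧
      (∀ i < w / 6, PowerSeries.coeff i φ = 0) ∧ PowerSeries.coeff (w / 6) φ = 1 := by
    rintro X ⟨f, g, c, h1, h2, h3, h4⟩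
    rw [hd] at h3 h4
    refine ⟨PowerSeries.mk c, ⟨f, g, IsMF.coe f, IsMF.coe g, funext h1⟩, Q.of_hasSum h2, fun i hi => ?_, ?_⟩
    · rw [PowerSeries.coeff_mk]; exact h3 i hi
    · rw [PowerSeries.coeff_mk]; exact h4
  refine ⟨?_, ?_⟩
  · obtain ⟨f, g, h1, h2⟩ := exists_pair w hw (by omega)
    refine ⟨(f + E2 * g : ℍ → ℂ), ⟨f, g, fun n => PowerSeries.coeff n (qExpansion 1 f + c2 * qExpansion 1 g),
      fun τ => rfl, (Q_of_pair f g).hasSum, ?_, ?_⟩, ?_⟩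
    · rw [hd]; exact h1
    · rw [hd]; exact h2
    · intro X hX
      obtain ⟨φ, a1, a2, a3, a4⟩ := conv X hX
      refine IsQ1.unique (m := w / 6 + 1) a1 (isQ1_pair f g) a2 (Q_of_pair f g) (by push_cast; omega) (by omega) ?_
      intro i hi
      rcases Nat.lt_succ_iff_lt_or_eq.mp hi with h | h
      · rw [a3 i h, h1 i h]
      · rw [h, a4, h2]
  · intro X hX
    obtain ⟨φ, a1, a2, a3, a4⟩ := conv X hX
    obtain ⟨⟨r, hr⟩, h⟩ := QM.main w hw h6 h8 h10 X φ a1 a2 a3 a4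
    have hpt : ∀ τ : ℍ, τ.re = 0 → τ = ipt τ.im τ.im_pos := by
      intro τ hτ
      apply UpperHalfPlane.ext
      rw [ipt_coe]
      apply Complex.ext
      · simp [hτ]
      · simp
    refine ⟨fun τ hτ => ?_, fun σ τ hσ hτ hlt => ?_⟩
    · rw [hr] at a2
      rw [hpt τ hτ, ← ax_real a2 τ.im τ.im_pos, Complex.ofReal_im]
    · have h1 := h σ.im τ.im σ.im_pos hlt
      rwa [ax_eq X _ σ.im_pos, ax_eq X _ τ.im_pos, ← hpt σ hσ, ← hpt τ hτ] at h1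

end Pool.Agent.Results.MP_d6a497_nt.Monotone
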